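import Mathlib
import Pool.Agent.H16.LA.Tame

/-!
# Inertia groups in abelian extensions

In a finite abelian extension the tame part of the inertia group at a prime has order dividing
`q - 1`, where `q` is the norm of the prime of the base field.
-/

set_option autoImplicit false
set_option linter.style.haveILetI false
set_option linter.unusedSectionVars false

namespace Pool.Agent.H16.AB

open Ideal
open Pool.Agent.H16.LA (inertia_smul_mem)

section Inertia

variable {S G : Type*} [CommRing S] [IsDedekindDomain S] [Group G] [MulSemiringAction G S]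

/-- An element of the inertia group which acts trivially on `Q / Q ^ 2` and whose order is not in
`Q` is trivial. -/
theorem eq_one_of_sub_mem [FaithfulSMul G S] (Q : Ideal S) [hQp : Q.IsPrime]
    (hQ : Q ≠ ⊥) {m : ℕ} (hm : (m : S) ∉ Q) {π : S} (hπ1 : π ∈ Q ^ 1) (hπ2 : π ∉ Q ^ (1 + 1))
    {σ : G} (hσ : σ ∈ Q.inertia G) (hσm : σ ^ m = 1) (hσ1 : σ • π - π ∈ Q ^ 2) : σ = 1 := by
  classical
  have hπ : π ∈ Q := by simpa using hπ1
  have hQ1 : Q ≠ ⊤ := hQp.ne_top
  -- powers of `π`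
  have hπi : ∀ i : ℕ, σ • (π ^ i) - π ^ i ∈ Q ^ (i + 1) := by
    intro i
    induction i with
    | zero =>
      simp
    | succ i ih =>
      have h1 : (σ • (π ^ i) - π ^ i) * (σ • π) ∈ Q ^ (i + 1 + 1) := by
        rw [pow_succ Q (i + 1)]
        refine Ideal.mul_mem_mul ih ?_
        simpa using inertia_smul_mem hσ hπ1
      have h2 : π ^ i * (σ • π - π) ∈ Q ^ (i + 1 + 1) := by
        have : Q ^ (i + 1 + 1) = Q ^ i * Q ^ 2 := by rw [← pow_add]
        rw [this]
        exact Ideal.mul_mem_mul (Ideal.pow_mem_pow hπ i) hσ1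
      have e : σ • (π ^ (i + 1)) - π ^ (i + 1) =
          (σ • (π ^ i) - π ^ i) * (σ • π) + π ^ i * (σ • π - π) := by
        rw [pow_succ, smul_mul']
        ring
      rw [e]
      exact (Q ^ (i + 1 + 1)).add_mem h1 h2
  have hD : ∀ i : ℕ, ∀ x ∈ Q ^ i, σ • x - x ∈ Q ^ (i + 1) := by
    intro i x hx
    have hπni : π ^ i ∉ Q ^ (i + 1) := by
      intro h
      rcases Nat.eq_zero_or_pos i with h0 | h0
      · subst h0
        apply hQ1
        rw [Ideal.eq_top_iff_one]
        simpa using h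
      · -- `π ^ i ∈ Q ^ (i+1)`
        have key : ∀ k : ℕ, π ^ k ∈ Q ^ (k + 1) → False := by
          intro k
          induction k with
          | zero =>
            intro h
            apply hQ1
            rw [Ideal.eq_top_iff_one]
            simpa using h
          | succ k ih =>
            intro h
            -- count multiplicities
            have hprime : Prime Q := Ideal.prime_of_isPrime hQ hQp
            apply hπ2
            have h5 : Q ^ (k + 1 + 1) ∣ Ideal.span {π} ^ (k + 1) := by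
              rw [Ideal.span_singleton_pow, Ideal.dvd_span_singleton]
              exact h
            obtain ⟨J, hJ⟩ : Q ∣ Ideal.span {π} := Ideal.dvd_span_singleton.2 hπ
            rw [hJ, mul_pow, pow_succ Q (k + 1)] at h5
            have h6 : Q ∣ J ^ (k + 1) :=
              (mul_dvd_mul_iff_left (pow_ne_zero _ hprime.ne_zero)).1 h5
            have h7 : Q ∣ J := hprime.dvd_of_dvd_pow h6
            have h8 : Q ^ 2 ∣ Ideal.span {π} := by
              rw [hJ, pow_two]
              exact mul_dvd_mul_left Q h7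
            exact Ideal.dvd_span_singleton.1 h8
        exact key i h
    obtain ⟨d, e, he, hde⟩ := Ideal.exists_mul_add_mem_pow_succ hQ (π ^ i) x
      (Ideal.pow_mem_pow hπ i) hπni hx
    rw [← hde]
    have h1 : (σ • (π ^ i) - π ^ i) * (σ • d) ∈ Q ^ (i + 1) :=
      (Q ^ (i + 1)).mul_mem_right _ (hπi i)
    have h2 : π ^ i * (σ • d - d) ∈ Q ^ (i + 1) := by
      rw [pow_succ]
      exact Ideal.mul_mem_mul (Ideal.pow_mem_pow hπ i) (hσ d)
    have h3 : σ • e ∈ Q ^ (i + 1) := inertia_smul_mem hσ he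
    have e1 : σ • (π ^ i * d + e) - (π ^ i * d + e) =
        ((σ • (π ^ i) - π ^ i) * (σ • d) + π ^ i * (σ • d - d)) +
          (σ • e - e) := by
      rw [smul_add, smul_mul']
      ring
    rw [e1]
    exact (Q ^ (i + 1)).add_mem ((Q ^ (i + 1)).add_mem h1 h2) ((Q ^ (i + 1)).sub_mem h3 he)
  -- all powers
  have hpow : ∀ (k i : ℕ) (y : S), y ∈ Q ^ i → (σ ^ k) • y - y ∈ Q ^ (i + 1) := by
    intro k
    induction k with
    | zero => intro i y _; simp
    | succ k ih =>
      intro i y hy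
      have h1 := ih i y hy
      have h2 := hD i _ (inertia_smul_mem (σ := σ ^ k) (Subgroup.pow_mem _ hσ k) hy)
      have e : (σ ^ (k + 1)) • y - y =
          (σ • ((σ ^ k) • y) - (σ ^ k) • y) + ((σ ^ k) • y - y) := by
        rw [pow_succ', mul_smul]
        ring
      rw [e]
      exact (Q ^ (i + 1)).add_mem h2 h1
  -- `σ ^ k x - x ≡ k (σ x - x)`
  have hsum : ∀ (i : ℕ) (x : S), σ • x - x ∈ Q ^ i → ∀ k : ℕ,
      (σ ^ k) • x - x - (k : S) * (σ • x - x) ∈ Q ^ (i + 1) := by
    intro i x hx k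
    induction k with
    | zero => simp
    | succ k ih =>
      have h1 := hpow k i _ hx
      have e : (σ ^ (k + 1)) • x - x - ((k + 1 : ℕ) : S) * (σ • x - x) =
          ((σ ^ k) • (σ • x - x) - (σ • x - x)) +
          ((σ ^ k) • x - x - (k : S) * (σ • x - x)) := by
        rw [pow_succ, mul_smul, smul_sub]
        push_cast
        ring
      rw [e]
      exact (Q ^ (i + 1)).add_mem h1 ih
  have hall : ∀ (i : ℕ) (x : S), σ • x - x ∈ Q ^ i := by
    intro i
    induction i with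
    | zero => intro x; simp
    | succ i ih =>
      intro x
      have h1 := hsum i x (ih x) m
      rw [hσm, one_smul, sub_self, zero_sub] at h1
      have h2 : (m : S) * (σ • x - x) ∈ Q ^ (i + 1) := by
        have := (Q ^ (i + 1)).neg_mem h1
        simpa using this
      exact (Ideal.IsPrime.mul_mem_pow Q h2).resolve_left hm
  have hbot : ∀ x : S, σ • x = x := by
    intro x
    have h1 : σ • x - x ∈ (⨅ i : ℕ, Q ^ i) := by
      rw [Ideal.mem_iInf]
      exact fun i => hall i x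
    rw [Ideal.iInf_pow_eq_bot_of_isDomain Q hQ1] at h1
    exact sub_eq_zero.1 (by simpa using h1)
  apply FaithfulSMul.eq_of_smul_eq_smul (α := S)
  intro x
  rw [hbot x, one_smul]

/-- The multiplier of the inertia group. -/
theorem exists_mult (G : Type*) [Group G] [MulSemiringAction G S] (Q : Ideal S) [hQp : Q.IsPrime]
    (hQ : Q ≠ ⊥) :
    ∃ (π : S) (f : Q.inertia G →* S ⧸ Q), π ∈ Q ^ 1 ∧ π ∉ Q ^ (1 + 1) ∧
      ∀ (σ : Q.inertia G), ∃ a : S, Ideal.Quotient.mk Q a = f σ ∧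
        ∀ ρ ∈ Q, (σ : G) • ρ - a * ρ ∈ Q ^ 2 := by
  classical
  have hQ1 : Q ≠ ⊤ := hQp.ne_top
  obtain ⟨π, hπ1, hπ2⟩ := exists_mem_pow_notMem_pow_succ Q hQ hQ1 1
  have hπ : π ∈ Q := by simpa using hπ1
  -- the multiplier
  have hex : ∀ σ : Q.inertia G, ∃ a : S, (σ : G) • π - a * π ∈ Q ^ 2 := by
    intro σ
    have h1 : (σ : G) • π ∈ Q ^ 1 := inertia_smul_mem σ.2 hπ1
    obtain ⟨d, e, he, hde⟩ := Ideal.exists_mul_add_mem_pow_succ hQ π _ hπ1 hπ2 h1
    refine ⟨d, ?_⟩
    rw [← hde]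
    have : π * d + e - d * π = e := by ring
    rw [this]
    exact he
  choose a ha using hex
  have huniq : ∀ x y : S, x * π - y * π ∈ Q ^ 2 → Ideal.Quotient.mk Q x = Ideal.Quotient.mk Q y := by
    intro x y h
    rw [Ideal.Quotient.mk_eq_mk_iff_sub_mem]
    have h1 : (x - y) * π ∈ Q ^ 2 := by
      have e : (x - y) * π = x * π - y * π := by ring
      rw [e]
      exact h
    exact (Ideal.IsPrime.mul_mem_pow Q h1).resolve_right hπ2
  let f : Q.inertia G →* S ⧸ Q :=
    { toFun := fun σ => Ideal.Quotient.mk Q (a σ)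
      map_one' := by
        have h := ha 1
        rw [← map_one (Ideal.Quotient.mk Q)]
        apply huniq
        have e : a 1 * π - 1 * π = -(((1 : Q.inertia G) : G) • π - a 1 * π) := by
          simp
        rw [e]
        exact (Q ^ 2).neg_mem h
      map_mul' := by
        intro σ τ
        rw [← map_mul]
        apply huniq
        -- `σ τ π ≡ σ (a τ) σ π ≡ a τ a σ π`
        have h1 := ha (σ * τ)
        have h2 : (σ : G) • ((τ : G) • π - a τ * π) ∈ Q ^ 2 := inertia_smul_mem σ.2 (ha τ)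
        have h3 : ((σ : G) • a τ - a τ) * ((σ : G) • π) ∈ Q ^ 2 := by
          rw [pow_two]
          refine Ideal.mul_mem_mul (σ.2 (a τ)) ?_
          simpa using inertia_smul_mem σ.2 hπ1
        have h4 : a τ * ((σ : G) • π - a σ * π) ∈ Q ^ 2 := (Q ^ 2).mul_mem_left _ (ha σ)
        have e : a (σ * τ) * π - a σ * a τ * π =
            -((((σ * τ : Q.inertia G) : G)) • π - a (σ * τ) * π) +
            ((σ : G) • ((τ : G) • π - a τ * π) + (((σ : G) • a τ - a τ) * ((σ : G) • π) +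
              a τ * ((σ : G) • π - a σ * π))) := by
          rw [smul_sub, smul_mul', Subgroup.coe_mul, mul_smul]
          ring
        rw [e]
        exact (Q ^ 2).add_mem ((Q ^ 2).neg_mem h1) ((Q ^ 2).add_mem h2 ((Q ^ 2).add_mem h3 h4)) }
  refine ⟨π, f, hπ1, hπ2, fun σ => ⟨a σ, rfl, fun ρ hρ => ?_⟩⟩
  obtain ⟨d, e, he, hde⟩ := Ideal.exists_mul_add_mem_pow_succ hQ π ρ hπ1 hπ2 (by simpa using hρ)
  rw [← hde]
  have h1 : ((σ : G) • π - a σ * π) * ((σ : G) • d) ∈ Q ^ 2 := (Q ^ 2).mul_mem_right _ (ha σ)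
  have h2 : a σ * (π * ((σ : G) • d - d)) ∈ Q ^ 2 := by
    refine (Q ^ 2).mul_mem_left _ ?_
    rw [pow_two]
    exact Ideal.mul_mem_mul hπ (σ.2 d)
  have h3 : (σ : G) • e ∈ Q ^ 2 := inertia_smul_mem σ.2 he
  have h4 : a σ * e ∈ Q ^ 2 := (Q ^ 2).mul_mem_left _ he
  have e1 : (σ : G) • (π * d + e) - a σ * (π * d + e) =
      ((σ : G) • π - a σ * π) * ((σ : G) • d) + a σ * (π * ((σ : G) • d - d)) +
        ((σ : G) • e - a σ * e) := by
    rw [smul_add, smul_mul']
    ring
  rw [e1]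
  exact (Q ^ 2).add_mem ((Q ^ 2).add_mem h1 h2) ((Q ^ 2).sub_mem h3 h4)


/-- In an abelian group, the inertia group has order dividing `(q - 1) p ^ s`. -/
theorem card_inertia_dvd_of_frob [Finite G] [FaithfulSMul G S] (Q : Ideal S) [hQp : Q.IsPrime]
    (hQ : Q ≠ ⊥) {p q : ℕ} (hp : p.Prime) (hpQ : (p : S) ∈ Q) (hq : 1 < q)
    (hcomm : ∀ σ τ : G, σ * τ = τ * σ) (φ : G) (hφ : ∀ x : S, φ • x - x ^ q ∈ Q) :
    ∃ s : ℕ, Nat.card (Q.inertia G) ∣ (q - 1) * p ^ s := by
  classical
  have hQ1 : Q ≠ ⊤ := hQp.ne_top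
  obtain ⟨π, f, hπ1, hπ2, hf⟩ := exists_mult G Q hQ
  have hπ : π ∈ Q := by simpa using hπ1
  have hφQ : ∀ x ∈ Q, φ • x ∈ Q := by
    intro x hx
    have h1 := Q.add_mem (hφ x) (Ideal.pow_mem_of_mem Q hx q (by omega))
    simpa using h1
  have hφQ' : ∀ x, φ • x ∈ Q → x ∈ Q := by
    intro x hx
    have h1 : x ^ q ∈ Q := by
      have := Q.sub_mem hx (hφ x)
      simpa using this
    exact hQp.mem_of_pow_mem q h1
  let F : S →+* S := MulSemiringAction.toRingHom G S φ
  have hQF : Q ≤ Ideal.comap F Q := fun y hy => hφQ y hy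
  have hφQ2 : ∀ x ∈ Q ^ 2, φ • x ∈ Q ^ 2 := by
    intro x hx
    have h4 : Q ^ 2 ≤ Ideal.comap F (Q ^ 2) :=
      (Ideal.pow_right_mono hQF 2).trans (Ideal.le_comap_pow F 2)
    exact h4 hx
  let F' : S →+* S := MulSemiringAction.toRingHom G S φ⁻¹
  have hQF' : Q ≤ Ideal.comap F' Q := by
    intro y hy
    rw [Ideal.mem_comap]
    apply hφQ'
    change φ • (φ⁻¹ • y) ∈ Q
    rw [smul_inv_smul]
    exact hy
  have hφQ2' : ∀ x, φ • x ∈ Q ^ 2 → x ∈ Q ^ 2 := by
    intro x hx
    have h4 : Q ^ 2 ≤ Ideal.comap F' (Q ^ 2) :=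
      (Ideal.pow_right_mono hQF' 2).trans (Ideal.le_comap_pow F' 2)
    have h5 := h4 hx
    rw [Ideal.mem_comap] at h5
    change φ⁻¹ • (φ • x) ∈ Q ^ 2 at h5
    rwa [inv_smul_smul] at h5
  have hfq : ∀ σ : Q.inertia G, f σ ^ q = f σ := by
    intro σ
    obtain ⟨a, ha, haρ⟩ := hf σ
    rw [← ha, ← map_pow, Ideal.Quotient.mk_eq_mk_iff_sub_mem]
    have h1 := haρ _ (hφQ π hπ)
    have h2 : φ • ((σ : G) • π - a * π) ∈ Q ^ 2 := hφQ2 _ (haρ π hπ)
    have h3 : (φ • a - a ^ q) * (φ • π) ∈ Q ^ 2 := by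
      rw [pow_two]
      exact Ideal.mul_mem_mul (hφ a) (hφQ π hπ)
    have e : (a ^ q - a) * (φ • π) = ((σ : G) • (φ • π) - a * (φ • π)) -
        φ • ((σ : G) • π - a * π) - (φ • a - a ^ q) * (φ • π) := by
      rw [smul_sub, smul_mul', ← mul_smul, ← mul_smul, hcomm]
      ring
    have h4 : (a ^ q - a) * (φ • π) ∈ Q ^ 2 := by
      rw [e]
      exact (Q ^ 2).sub_mem ((Q ^ 2).sub_mem h1 h2) h3
    exact (Ideal.IsPrime.mul_mem_pow Q h4).resolve_right fun h => hπ2 (hφQ2' _ h)
  have hfu : ∀ σ : Q.inertia G, f σ ^ (q - 1) = 1 := by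
    intro σ
    have hu : IsUnit (f σ) := (Group.isUnit σ).map f
    have h1 : f σ ^ (q - 1) * f σ = 1 * f σ := by
      rw [← pow_succ, Nat.sub_add_cancel (by omega), hfq, one_mul]
    exact hu.mul_right_cancel h1
  -- the kernel is a `p`-group
  let f' : Q.inertia G →* (S ⧸ Q)ˣ := f.toHomUnits
  have hf' : ∀ σ, ((f' σ : (S ⧸ Q)ˣ) : S ⧸ Q) = f σ := fun σ => rfl
  have hker : IsPGroup p f'.ker := by
    haveI := Fact.mk hp
    intro σ
    -- `σ` has order `p ^ k * m`
    obtain ⟨k, m, hm, hkm⟩ := Nat.exists_eq_pow_mul_and_not_dvd (orderOf_pos σ).ne' p hp.ne_one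
    refine ⟨k, ?_⟩
    apply Subtype.ext
    apply Subtype.ext
    obtain ⟨a, ha, haρ⟩ := hf ((σ : Q.inertia G) ^ (p ^ k))
    have h1 : f ((σ : Q.inertia G) ^ (p ^ k)) = 1 := by
      have h2 : (σ : Q.inertia G) ^ (p ^ k) ∈ f'.ker := Subgroup.pow_mem _ σ.2 _
      rw [MonoidHom.mem_ker] at h2
      rw [← hf', h2]
      rfl
    have h3 : a - 1 ∈ Q := by
      rw [← Ideal.Quotient.mk_eq_mk_iff_sub_mem, ha, h1, map_one]
    have h4 : (((σ : Q.inertia G) ^ (p ^ k) : Q.inertia G) : G) • π - π ∈ Q ^ 2 := by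
      have h5 : (a - 1) * π ∈ Q ^ 2 := by
        rw [pow_two]
        exact Ideal.mul_mem_mul h3 hπ
      have h6 := (Q ^ 2).add_mem (haρ π hπ) h5
      have e : (((σ : Q.inertia G) ^ (p ^ k) : Q.inertia G) : G) • π - a * π + (a - 1) * π =
        (((σ : Q.inertia G) ^ (p ^ k) : Q.inertia G) : G) • π - π := by ring
      rwa [e] at h6
    have hmQ : (m : S) ∉ Q := by
      intro h
      apply hQ1
      rw [Ideal.eq_top_iff_one]
      have hcop : IsCoprime (m : ℤ) (p : ℤ) := by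
        rw [Nat.isCoprime_iff_coprime]
        exact ((Nat.Prime.coprime_iff_not_dvd hp).2 hm).symm
      obtain ⟨x, y, hxy⟩ := hcop
      have h7 : (x : S) * (m : S) + (y : S) * (p : S) = 1 := by
        have := congrArg (fun z : ℤ => (z : S)) hxy
        push_cast at this
        exact this
      rw [← h7]
      exact Q.add_mem (Q.mul_mem_left _ h) (Q.mul_mem_left _ hpQ)
    refine eq_one_of_sub_mem Q hQ hmQ hπ1 hπ2 ((σ : Q.inertia G) ^ (p ^ k)).2 ?_ h4
    have h8 : σ ^ (p ^ k * m) = 1 := by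
      rw [← hkm]
      exact pow_orderOf_eq_one σ
    have h9 := congrArg (fun z : f'.ker => ((z : Q.inertia G) : G)) h8
    simp only [Subgroup.coe_pow, Subgroup.coe_one, pow_mul] at h9
    simpa using h9
  haveI := Fact.mk hp
  obtain ⟨s, hs⟩ := IsPGroup.iff_card.1 hker
  refine ⟨s, ?_⟩
  have hcard : Nat.card (Q.inertia G) = Nat.card f'.ker * Nat.card f'.range := by
    rw [← Subgroup.card_mul_index f'.ker, Subgroup.index_ker]
  rw [hcard, hs, mul_comm]
  refine Nat.mul_dvd_mul ?_ dvd_rfl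
  haveI : Finite f'.range := Finite.of_surjective f'.rangeRestrict f'.rangeRestrict_surjective
  haveI : IsCyclic f'.range :=
    isCyclic_of_injective_ringHom ((Units.coeHom (S ⧸ Q)).comp f'.range.subtype)
      (Units.val_injective.comp Subtype.val_injective)
  rw [← IsCyclic.exponent_eq_card]
  apply Monoid.exponent_dvd_of_forall_pow_eq_one
  rintro ⟨x, σ, rfl⟩
  apply Subtype.ext
  apply Units.ext
  change (((f' σ) ^ (q - 1) : (S ⧸ Q)ˣ) : S ⧸ Q) = 1
  rw [Units.val_pow_eq_pow_val, hf', hfu]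

end Inertia

end Pool.Agent.H16.AB
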