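import Mathlib
import Pool.Agent.H16.LH.Main
import Pool.Agent.H16.AB.Ram

/-!
# Ramification in abelian extensions of fields of bounded degree
-/

set_option autoImplicit false
set_option linter.unusedSectionVars false
set_option linter.style.haveILetI false

namespace Pool.Agent.H16.AB

open NumberField IsDedekindDomain Pool.Agent.H691R3 Pool.Agent.W223.AK Pool.Agent.Y733.DYN

/-- `L` is an abelian extension of an intermediate field of degree at most `B` over `K`. -/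
def AbOver (B : ℕ) (K L : Type) [Field K] [Field L] [Algebra K L] : Prop :=
  ∃ E : IntermediateField K L, Module.finrank K E ≤ B ∧ IsGalois E L ∧
    ∀ σ τ : L ≃ₐ[E] L, σ * τ = τ * σ

/-- The primes at which no abelian extension of a field of degree at most `B` has ramification
index divisible by `d`. -/
def Cy (d B : ℕ) {K : Type} [Field K] [NumberField K] (v : Pr K) : Prop :=
  (d : 𝓞 K) ∉ v.asIdeal ∧ ∀ i f : ℕ, 1 ≤ i → 1 ≤ f → i * f ≤ B →
    ¬ d ∣ i * (Ideal.absNorm v.asIdeal ^ f - 1)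

theorem ram_of_comm {E L : Type} [Field E] [NumberField E] [Field L] [NumberField L] [Algebra E L]
    [IsGalois E L] (hc : ∀ σ τ : L ≃ₐ[E] L, σ * τ = τ * σ) (w : Pr L) (u : Pr E)
    (h : w ∈ Ab L u) {p : ℕ} (hp : p.Prime) (hpw : (p : 𝓞 L) ∈ w.asIdeal) :
    ∃ s : ℕ, w.asIdeal.ramificationIdx (𝓞 E) ∣ (Ideal.absNorm u.asIdeal - 1) * p ^ s := by
  haveI : w.asIdeal.IsPrime := w.isPrime
  haveI : w.asIdeal.IsMaximal := w.isMaximal
  haveI : u.asIdeal.IsPrime := u.isPrime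
  haveI : u.asIdeal.IsMaximal := u.isMaximal
  haveI : w.asIdeal.LiesOver u.asIdeal := mem_Ab.1 h
  haveI : FaithfulSMul (L ≃ₐ[E] L) (𝓞 L) := IsGaloisGroup.faithful (𝓞 E)
  haveI : Finite (𝓞 L ⧸ w.asIdeal) := Ideal.finiteQuotientOfFreeOfNeBot w.asIdeal w.ne_bot
  haveI : Finite (𝓞 E ⧸ u.asIdeal) := Ideal.finiteQuotientOfFreeOfNeBot u.asIdeal u.ne_bot
  have hu : w.asIdeal.under (𝓞 E) = u.asIdeal := (Ideal.over_def w.asIdeal u.asIdeal).symm
  obtain ⟨φ, hφ⟩ := IsArithFrobAt.exists_of_isInvariant (𝓞 E) (L ≃ₐ[E] L) w.asIdeal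
  have hq : Nat.card (𝓞 E ⧸ w.asIdeal.under (𝓞 E)) = Ideal.absNorm u.asIdeal := by
    rw [hu]
    rfl
  have hq1 : 1 < Ideal.absNorm u.asIdeal := by
    rw [← hq, hu]
    exact Finite.one_lt_card
  have hφ' : ∀ x : 𝓞 L, φ • x - x ^ (Ideal.absNorm u.asIdeal) ∈ w.asIdeal := by
    intro x
    rw [← hq]
    exact hφ x
  obtain ⟨s, hs⟩ := card_inertia_dvd_of_frob w.asIdeal w.ne_bot hp hpw hq1 hc φ hφ'
  refine ⟨s, ?_⟩
  haveI : PerfectField u.asIdeal.ResidueField := by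
    haveI : Finite u.asIdeal.ResidueField := by
      exact Finite.of_surjective _
        (Ideal.bijective_algebraMap_quotient_residueField u.asIdeal).surjective
    infer_instance
  have h2 := Ideal.card_inertia_eq_ramificationIdxIn (G := L ≃ₐ[E] L) u.asIdeal w.asIdeal
  rw [h2, Ideal.ramificationIdxIn_eq_ramificationIdx u.asIdeal w.asIdeal (L ≃ₐ[E] L)] at hs
  exact hs

/-- the prime number below a prime -/
theorem exists_prime_mem {L : Type} [Field L] [NumberField L] (w : Pr L) :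
    ∃ p : ℕ, p.Prime ∧ (p : 𝓞 L) ∈ w.asIdeal := by
  haveI : w.asIdeal.IsPrime := w.isPrime
  haveI : w.asIdeal.IsMaximal := w.isMaximal
  haveI : Finite (𝓞 L ⧸ w.asIdeal) := Ideal.finiteQuotientOfFreeOfNeBot w.asIdeal w.ne_bot
  haveI : Field (𝓞 L ⧸ w.asIdeal) := Ideal.Quotient.field w.asIdeal
  obtain ⟨p, hc⟩ := CharP.exists (𝓞 L ⧸ w.asIdeal)
  haveI := hc
  refine ⟨p, ?_, ?_⟩
  · exact (CharP.char_is_prime_or_zero (𝓞 L ⧸ w.asIdeal) p).resolve_right
      (CharP.ringChar_ne_zero_of_finite (𝓞 L ⧸ w.asIdeal) ∘ fun h => by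
        rw [← h]; exact (ringChar.eq (𝓞 L ⧸ w.asIdeal) p).symm ▸ rfl)
  · have h : ((p : ℕ) : 𝓞 L ⧸ w.asIdeal) = 0 := CharP.cast_eq_zero _ p
    rw [← Ideal.Quotient.eq_zero_iff_mem, map_natCast]
    exact h

theorem not_dvd_ri {K L : Type} [Field K] [NumberField K] [Field L] [NumberField L] [Algebra K L]
    {d B : ℕ} (hL : AbOver B K L) {v : Pr K} (hv : Cy d B v) {w : Pr L} (hw : w ∈ Ab L v) :
    ¬ d ∣ ri v w := by
  obtain ⟨E, hE, hgal, hc⟩ := hL
  haveI : NumberField E := NumberField.of_module_finite K E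
  set u : Pr E := w.under (𝓞 E) with hu
  have hwu : w ∈ Ab L u := mem_Ab.2 ⟨rfl⟩
  haveI : w.asIdeal.LiesOver u.asIdeal := mem_Ab.1 hwu
  haveI : w.asIdeal.LiesOver v.asIdeal := mem_Ab.1 hw
  have huv : u ∈ Ab E v := mem_Ab.2 (Ideal.LiesOver.tower_bot w.asIdeal u.asIdeal v.asIdeal)
  haveI : u.asIdeal.LiesOver v.asIdeal := mem_Ab.1 huv
  haveI : w.asIdeal.IsPrime := w.isPrime
  haveI : u.asIdeal.IsPrime := u.isPrime
  haveI : v.asIdeal.IsPrime := v.isPrime
  obtain ⟨p, hp, hpw⟩ := exists_prime_mem w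
  obtain ⟨s, hs⟩ := ram_of_comm hc w u hwu hp hpw
  rw [ri_eq hw, Ideal.ramificationIdx_tower u.asIdeal w.asIdeal]
  intro hd
  set f := u.asIdeal.inertiaDeg (𝓞 K) with hf
  have hf1 : 1 ≤ f := Ideal.inertiaDeg_pos u.asIdeal (𝓞 K)
  set i := u.asIdeal.ramificationIdx (𝓞 K) with hi
  have hi1 : 1 ≤ i := by
    rw [hi, ← ri_eq huv]
    exact ri_pos huv
  have hN : Ideal.absNorm u.asIdeal = Ideal.absNorm v.asIdeal ^ f :=
    (Ideal.absNorm_pow_inertiaDeg v.asIdeal u.asIdeal).symm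
  -- `d ∣ i (N ^ f - 1) p ^ s`
  have h1 : d ∣ i * (Ideal.absNorm v.asIdeal ^ f - 1) * p ^ s := by
    refine hd.trans ?_
    rw [mul_assoc]
    rw [hN] at hs
    exact Nat.mul_dvd_mul_left i hs
  -- `p` does not divide `d`
  have hpd : ¬ p ∣ d := by
    rintro ⟨k, hk⟩
    apply hv.1
    have h2 : (p : 𝓞 K) ∈ v.asIdeal := by
      rw [Ideal.over_def w.asIdeal v.asIdeal, Ideal.mem_comap, map_natCast]
      exact hpw
    rw [hk]
    push_cast
    exact v.asIdeal.mul_mem_right _ h2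
  have hcop : Nat.Coprime d (p ^ s) :=
    Nat.Coprime.pow_right _ (((Nat.Prime.coprime_iff_not_dvd hp).2 hpd).symm)
  have h3 : d ∣ i * (Ideal.absNorm v.asIdeal ^ f - 1) := hcop.dvd_of_dvd_mul_right h1
  refine hv.2 i f hi1 hf1 ?_ h3
  -- `i f ≤ [E : K]`
  refine le_trans ?_ hE
  have h4 := sum_Ab (L := E) v
  have h5 : (ri v u : ℝ) * Real.log (Nv u) ≤ Module.finrank K E * Real.log (Nv v) := by
    rw [← h4]
    exact Finset.single_le_sum (f := fun w' => (ri v w' : ℝ) * Real.log (Nv w'))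
      (fun w' _ => mul_nonneg (Nat.cast_nonneg _) (log_Nv_pos w').le) huv
  have h6 : Nv u = Nv v ^ f := by
    unfold Nv
    rw [hN]
    push_cast
    rfl
  rw [h6, Real.log_pow, ri_eq huv, ← hi, ← mul_assoc] at h5
  have h7 := le_of_mul_le_mul_right h5 (log_Nv_pos v)
  exact_mod_cast h7

end Pool.Agent.H16.AB
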