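import Mathlib
import Pool.Agent.H16.AB.Ext
import Pool.Agent.H16.HE.S8.TH120.Sec.Split

/-!
# Supply of primes at which abelian extensions have no ramification index divisible by `d`
-/

set_option autoImplicit false
set_option linter.unusedSectionVars false

namespace Pool.Agent.H16.AB

open NumberField IsDedekindDomain Polynomial
open Pool.Agent.W401.Cheb Pool.Agent.TH120.Sec

/-- Some automorphism over `K` has no power `σ ^ f` fixing the `i`-th power of a certain `d`-th root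
of unity, for `i f ≤ B`. -/
def Cyc (K : Type) [Field K] (d B : ℕ) : Prop :=
  ∃ (ζ : AlgebraicClosure K) (σ : AlgebraicClosure K ≃ₐ[K] AlgebraicClosure K), ζ ^ d = 1 ∧
    ∀ i f : ℕ, 1 ≤ i → 1 ≤ f → i * f ≤ B → (σ ^ f) (ζ ^ i) ≠ ζ ^ i

theorem supply_cyc {K : Type} [Field K] [NumberField K] {d B : ℕ} (hd : 0 < d) (hc : Cyc K d B)
    (D : 𝓞 K) (hD : D ≠ 0) (δ : ℝ) (hδ : 0 < δ) (hδ1 : δ ≤ 1) (ε : ℝ) (hε : 0 < ε) :
    ∃ T : Finset (HeightOneSpectrum (𝓞 K)),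
      (∀ v ∈ T, D ∉ v.asIdeal ∧ Cy d B v) ∧
      ∏ v ∈ T, (1 - δ * (1 / (Ideal.absNorm v.asIdeal : ℝ) -
        1 / (Ideal.absNorm v.asIdeal : ℝ) ^ 2)) < ε := by
  classical
  obtain ⟨ζ, σ, hζ, hσ⟩ := hc
  obtain ⟨L, _, _, _, i, τ, κ, hκi, hκτ, hκs⟩ := exists_L K {ζ} (Set.finite_singleton ζ) σ
  obtain ⟨z, hz⟩ := hκs ζ rfl
  have hzd : z ^ d = 1 := by
    apply κ.injective
    rw [map_pow, hz, hζ, map_one]
  have hτpow : ∀ (f : ℕ) (x : L), κ ((τ ^ f) x) = (σ ^ f) (κ x) := by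
    intro f
    induction f with
    | zero => intro x; simp
    | succ f ih =>
      intro x
      rw [pow_succ', pow_succ', AlgEquiv.mul_apply, AlgEquiv.mul_apply, hκτ, ih]
  let iO : 𝓞 K →+* 𝓞 L := RingOfIntegers.mapRingHom i
  have hiO : ∀ x, ((iO x : 𝓞 L) : L) = i x := fun x => rfl
  have hiinj : Function.Injective iO := by
    intro x y hxy
    have h1 : (iO x : L) = iO y := by rw [hxy]
    rw [hiO, hiO] at h1
    exact RingOfIntegers.coe_injective (i.injective h1)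
  have hzint : IsIntegral ℤ z := by
    refine IsIntegral.of_pow hd ?_
    rw [hzd]
    exact isIntegral_one
  let zO : 𝓞 L := ⟨z, hzint⟩
  have hzO : ((zO : 𝓞 L) : L) = z := rfl
  have hzOd : zO ^ d = 1 := by
    apply RingOfIntegers.coe_injective
    rw [map_pow, map_one]
    exact hzd
  have hτi : ∀ x, τ (i x) = i x := by
    intro x
    apply κ.injective
    rw [hκτ, hκi, AlgEquiv.commutes]
  set I : Finset (ℕ × ℕ) := (Finset.Icc 1 B ×ˢ Finset.Icc 1 B).filter fun x => x.1 * x.2 ≤ B with hI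
  have hmemI : ∀ a f : ℕ, 1 ≤ a → 1 ≤ f → a * f ≤ B → (a, f) ∈ I := by
    intro a f ha hf haf
    rw [hI, Finset.mem_filter, Finset.mem_product, Finset.mem_Icc, Finset.mem_Icc]
    have h1 : a ≤ a * f := Nat.le_mul_of_pos_right _ hf
    have h2 : f ≤ a * f := Nat.le_mul_of_pos_left _ ha
    exact ⟨⟨⟨ha, by omega⟩, ⟨hf, by omega⟩⟩, haf⟩
  set E1 : 𝓞 L := ∏ x ∈ I, ((τ ^ x.2) • (zO ^ x.1) - zO ^ x.1) with hE1
  have hE1ne : E1 ≠ 0 := by
    rw [hE1, Finset.prod_ne_zero_iff]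
    rintro ⟨a, f⟩ hx h0
    rw [hI, Finset.mem_filter, Finset.mem_product, Finset.mem_Icc, Finset.mem_Icc] at hx
    obtain ⟨⟨⟨ha, _⟩, ⟨hf, _⟩⟩, haf⟩ := hx
    apply hσ a f ha hf haf
    have h1 : (((τ ^ f) • (zO ^ a) - zO ^ a : 𝓞 L) : L) = 0 := by
      rw [h0]
      rfl
    have h2 : (((τ ^ f) • (zO ^ a) - zO ^ a : 𝓞 L) : L) = (τ ^ f) (z ^ a) - z ^ a := rfl
    rw [h2, sub_eq_zero] at h1
    have h3 := congrArg κ h1
    rw [hτpow, map_pow, hz] at h3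
    exact h3
  have hd0 : (d : 𝓞 K) ≠ 0 := Nat.cast_ne_zero.2 hd.ne'
  refine supply i τ hτi (iO (D * d) * E1) (mul_ne_zero (by
    rw [Ne, map_eq_zero_iff iO hiinj]
    exact mul_ne_zero hD hd0) hE1ne) _ ?_ δ hδ hδ1 ε hε
  intro p _ φ hφ hE v hv hnorm hψ
  rw [map_mul, map_mul, map_mul] at hE
  have hED : φ (iO D) ≠ 0 := fun h => hE (by rw [h, zero_mul, zero_mul])
  have hEd : φ (iO (d : 𝓞 K)) ≠ 0 := fun h => hE (by rw [h, mul_zero, zero_mul])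
  have hEE : φ E1 ≠ 0 := fun h => hE (by rw [h, mul_zero])
  refine ⟨fun h => hED ((hv D).1 h), fun h => hEd ((hv _).1 h), ?_⟩
  intro a f ha hf haf hdvd
  have hφf : ∀ (f : ℕ) (x : 𝓞 L), φ ((τ ^ f) • x) = φ x ^ (p ^ f) := by
    intro f
    induction f with
    | zero => intro x; simp
    | succ f ih =>
      intro x
      rw [pow_succ', mul_smul, hφ, ih, ← pow_mul, ← pow_succ]
  apply hEE
  rw [hE1, map_prod]
  apply Finset.prod_eq_zero (hmemI a f ha hf haf)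
  rw [hnorm] at hdvd
  have hp := (Fact.out : p.Prime)
  have h1 : 1 ≤ p ^ f := Nat.one_le_pow _ _ hp.pos
  obtain ⟨k, hk⟩ := hdvd
  have h2 : (φ zO ^ a) ^ (p ^ f) = φ zO ^ a * φ zO ^ (a * (p ^ f - 1)) := by
    rw [← pow_mul, ← pow_add]
    congr 1
    obtain ⟨m, hm⟩ : ∃ m, p ^ f = m + 1 := ⟨p ^ f - 1, by omega⟩
    rw [hm, Nat.add_sub_cancel]
    ring
  have h3 : φ zO ^ d = 1 := by rw [← map_pow, hzOd, map_one]
  change φ ((τ ^ f) • (zO ^ a) - zO ^ a) = 0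
  rw [map_sub, hφf, map_pow, h2, hk, pow_mul (φ zO) d k, h3, one_pow, mul_one, sub_self]

/-- supply without a condition -/
theorem supply_all {K : Type} [Field K] [NumberField K] (D : 𝓞 K) (hD : D ≠ 0) (δ : ℝ)
    (hδ : 0 < δ) (hδ1 : δ ≤ 1) (ε : ℝ) (hε : 0 < ε) :
    ∃ T : Finset (HeightOneSpectrum (𝓞 K)), (∀ v ∈ T, D ∉ v.asIdeal) ∧
      ∏ v ∈ T, (1 - δ * (1 / (Ideal.absNorm v.asIdeal : ℝ) -
        1 / (Ideal.absNorm v.asIdeal : ℝ) ^ 2)) < ε := by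
  obtain ⟨T, hT, hTε⟩ := supply_split (K := K) 2 Nat.prime_two D hD δ hδ hδ1 ε hε
  exact ⟨T, fun v hv => (hT v hv).1, hTε⟩

end Pool.Agent.H16.AB
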