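import Mathlib
import Pool.Agent.H16.AB.Sup

/-!
# Roots of unity moved by automorphisms over a number field
-/

set_option autoImplicit false
set_option linter.unusedSectionVars false
set_option linter.style.haveILetI false

namespace Pool.Agent.H16.AB

open NumberField Polynomial

section

variable {K : Type} [Field K] [NumberField K]

theorem exists_prim (K : Type) [Field K] [NumberField K] {d : ℕ} (hd : 0 < d) :
    ∃ ζ : AlgebraicClosure K, IsPrimitiveRoot ζ d := by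
  have : NeZero (d : AlgebraicClosure K) := ⟨Nat.cast_ne_zero.2 hd.ne'⟩
  exact HasEnoughRootsOfUnity.exists_primitiveRoot (AlgebraicClosure K) d

theorem cyc_one {d : ℕ} (hd : 0 < d) (h : ¬ ∃ z : K, IsPrimitiveRoot z d) : Cyc K d 1 := by
  obtain ⟨ζ, hζ⟩ := exists_prim K hd
  have h1 : ¬ ∀ σ : AlgebraicClosure K ≃ₐ[K] AlgebraicClosure K, σ ζ = ζ := by
    intro h2
    obtain ⟨z, hz⟩ := (InfiniteGalois.mem_range_algebraMap_iff_fixed ζ).2 h2
    refine h ⟨z, ?_⟩
    rw [← hz] at hζ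
    exact hζ.of_map_of_injective (algebraMap K (AlgebraicClosure K)).injective
  push Not at h1
  obtain ⟨σ, hσ⟩ := h1
  refine ⟨ζ, σ, hζ.pow_eq_one, fun i f hi hf hif => ?_⟩
  have h2 : i = 1 := by
    have : i ≤ i * f := Nat.le_mul_of_pos_right _ hf
    omega
  have h3 : f = 1 := by
    have : f ≤ i * f := Nat.le_mul_of_pos_left _ hi
    omega
  rw [h2, h3, pow_one, pow_one]
  exact hσ

theorem exists_sigma {q : ℕ} (hq : 0 < q) {ζ : AlgebraicClosure K} (hζ : IsPrimitiveRoot ζ q)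
    {a : ℕ} (ha : a.Coprime q) :
    ∃ m : ℕ, 1 ≤ m ∧ m ≤ Module.finrank ℚ K ∧
      ∃ σ : AlgebraicClosure K ≃ₐ[K] AlgebraicClosure K, σ ζ = ζ ^ (a ^ m) := by
  classical
  have : Algebra.IsAlgebraic ℚ (AlgebraicClosure K) := Algebra.IsAlgebraic.trans ℚ K _
  have : IsAlgClosure ℚ (AlgebraicClosure K) := ⟨inferInstance, inferInstance⟩
  haveI : Normal ℚ (AlgebraicClosure K) := IsAlgClosure.normal ℚ (AlgebraicClosure K)
  have h1 : IsConjRoot ℚ (ζ ^ a) ζ := by
    unfold IsConjRoot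
    rw [← cyclotomic_eq_minpoly_rat hζ hq,
      ← cyclotomic_eq_minpoly_rat (hζ.pow_of_coprime a ha) hq]
  obtain ⟨τ, hτ⟩ := isConjRoot_iff_exists_algEquiv.1 h1
  have hτm : ∀ m : ℕ, (τ ^ m) ζ = ζ ^ (a ^ m) := by
    intro m
    induction m with
    | zero => simp
    | succ m ih =>
      rw [pow_succ', AlgEquiv.mul_apply, ih, map_pow, hτ, ← pow_mul, pow_succ, mul_comm]
  let g : ℕ → (K →+* AlgebraicClosure K) := fun m =>
    ((τ ^ m : AlgebraicClosure K ≃ₐ[ℚ] AlgebraicClosure K) :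
      AlgebraicClosure K →+* AlgebraicClosure K).comp (algebraMap K (AlgebraicClosure K))
  have hg : ∀ m x, g m x = (τ ^ m) (algebraMap K (AlgebraicClosure K) x) := fun m x => rfl
  have hcard : (Finset.univ : Finset (K →+* AlgebraicClosure K)).card <
      (Finset.range (Module.finrank ℚ K + 1)).card := by
    rw [Finset.card_univ, Finset.card_range, Embeddings.card]
    omega
  obtain ⟨i, hi, j, hj, hij, hgij⟩ := Finset.exists_ne_map_eq_of_card_lt_of_maps_to hcard
    (fun m _ => Finset.mem_univ (g m))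
  -- the case `i < j`
  have key : ∀ i j : ℕ, i < j → j ≤ Module.finrank ℚ K → g i = g j →
      ∃ m : ℕ, 1 ≤ m ∧ m ≤ Module.finrank ℚ K ∧
      ∃ σ : AlgebraicClosure K ≃ₐ[K] AlgebraicClosure K, σ ζ = ζ ^ (a ^ m) := by
    intro i j hlt hj hgij
    refine ⟨j - i, by omega, by omega, ?_⟩
    have h2 : ∀ x : K, (τ ^ (j - i)) (algebraMap K (AlgebraicClosure K) x) =
        algebraMap K (AlgebraicClosure K) x := by
      intro x
      apply (τ ^ i).injective
      rw [← AlgEquiv.mul_apply, ← pow_add, Nat.add_sub_cancel' hlt.le, ← hg, ← hg, hgij]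
    exact ⟨AlgEquiv.ofRingEquiv (f := (τ ^ (j - i)).toRingEquiv) h2, hτm (j - i)⟩
  rw [Finset.mem_range] at hi hj
  rcases lt_or_gt_of_ne hij with h | h
  · exact key i j h (by omega) hgij
  · exact key j i h (by omega) hgij.symm

theorem cyc_aux {d B q : ℕ} (hq : 0 < q) (hqd : q ∣ d) {a : ℕ} (ha : a.Coprime q)
    (h : ∀ i f m : ℕ, 1 ≤ i → 1 ≤ f → i * f ≤ B → 1 ≤ m → m ≤ Module.finrank ℚ K →
      ¬ q ∣ i * (a ^ (m * f) - 1)) : Cyc K d B := by
  obtain ⟨ζ, hζ⟩ := exists_prim K hq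
  obtain ⟨m, hm1, hm2, σ, hσ⟩ := exists_sigma hq hζ ha
  refine ⟨ζ, σ, ?_, fun i f hi hf hif hcon => ?_⟩
  · obtain ⟨k, rfl⟩ := hqd
    rw [pow_mul, hζ.pow_eq_one, one_pow]
  have hσf : ∀ f : ℕ, (σ ^ f) ζ = ζ ^ (a ^ (m * f)) := by
    intro f
    induction f with
    | zero => simp
    | succ f ih =>
      rw [pow_succ', AlgEquiv.mul_apply, ih, map_pow, hσ, ← pow_mul, ← pow_add]
      congr 2
      ring
  apply h i f m hi hf hif hm1 hm2
  rw [← hζ.pow_eq_one_iff_dvd]
  have ha0 : 0 < a := by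
    rcases Nat.eq_zero_or_pos a with h0 | h0
    · rw [h0, Nat.coprime_zero_left] at ha
      exfalso
      apply h i f m hi hf hif hm1 hm2
      rw [ha]
      exact one_dvd _
    · exact h0
  have h1 : 1 ≤ a ^ (m * f) := Nat.one_le_pow _ _ ha0
  rw [map_pow, hσf, ← pow_mul] at hcon
  have h2 : a ^ (m * f) * i = i * (a ^ (m * f) - 1) + i := by
    obtain ⟨b, hb⟩ : ∃ b, a ^ (m * f) = b + 1 := ⟨a ^ (m * f) - 1, by omega⟩
    rw [hb, Nat.add_sub_cancel]
    ring
  rw [h2, pow_add] at hcon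
  have h3 : ζ ^ i ≠ 0 := pow_ne_zero _ (hζ.ne_zero hq.ne')
  exact mul_right_cancel₀ h3 (by rw [hcon, one_mul])

/-- a large prime power factor of `d` -/
theorem cyc_of_primePow {d B p k : ℕ} (hp : p.Prime) (hqd : p ^ k ∣ d)
    (h : B * 3 ^ (Module.finrank ℚ K * B) < p ^ k) : Cyc K d B := by
  have hq : 0 < p ^ k := pow_pos hp.pos _
  obtain ⟨a, ha2, ha3, ha⟩ : ∃ a : ℕ, 2 ≤ a ∧ a ≤ 3 ∧ a.Coprime (p ^ k) := by
    by_cases h2 : p = 2
    · refine ⟨3, by norm_num, le_rfl, Nat.Coprime.pow_right _ ?_⟩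
      rw [h2]
      norm_num
    · refine ⟨2, le_rfl, by norm_num, Nat.Coprime.pow_right _ ?_⟩
      exact (Nat.coprime_primes Nat.prime_two hp).2 (Ne.symm h2)
  refine cyc_aux hq hqd ha fun i f m hi hf hif hm1 hm2 hdvd => ?_
  have hif1 : f ≤ i * f := Nat.le_mul_of_pos_left _ hi
  have hif2 : i ≤ i * f := Nat.le_mul_of_pos_right _ hf
  have h1 : 1 < a ^ (m * f) := Nat.one_lt_pow (Nat.mul_pos hm1 hf).ne' (by omega)
  have h2 : 0 < i * (a ^ (m * f) - 1) := Nat.mul_pos hi (by omega)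
  have h3 := Nat.le_of_dvd h2 hdvd
  have h4 : a ^ (m * f) ≤ 3 ^ (Module.finrank ℚ K * B) :=
    (Nat.pow_le_pow_left ha3 _).trans (Nat.pow_le_pow_right (by norm_num)
      (Nat.mul_le_mul hm2 (hif1.trans hif)))
  have h5 : i * (a ^ (m * f) - 1) ≤ B * 3 ^ (Module.finrank ℚ K * B) :=
    Nat.mul_le_mul (hif2.trans hif) (by omega)
  omega

/-- a large prime factor of `d` -/
theorem cyc_of_prime {d B p : ℕ} (hp : p.Prime) (hpd : p ∣ d)
    (h : Module.finrank ℚ K * B + 1 < p) : Cyc K d B := by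
  haveI := Fact.mk hp
  have hn : 1 ≤ Module.finrank ℚ K := Module.finrank_pos
  obtain ⟨u, hu⟩ := IsCyclic.exists_generator (α := (ZMod p)ˣ)
  set a : ℕ := (u : ZMod p).val with ha
  have hau : (a : ZMod p) = u := ZMod.natCast_zmod_val _
  have hac : a.Coprime p := by
    rw [ha]
    exact ZMod.val_coe_unit_coprime u
  refine cyc_aux hp.pos hpd hac fun i f m hi hf hif hm1 hm2 hdvd => ?_
  have hif1 : f ≤ i * f := Nat.le_mul_of_pos_left _ hi
  have hif2 : i ≤ i * f := Nat.le_mul_of_pos_right _ hf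
  have hBn : B ≤ Module.finrank ℚ K * B := Nat.le_mul_of_pos_left _ hn
  have h1 : ¬ p ∣ i := fun h1 => by
    have := Nat.le_of_dvd hi h1
    omega
  have h2 : p ∣ a ^ (m * f) - 1 := (hp.dvd_mul.1 hdvd).resolve_left h1
  have ha0 : 0 < a := by
    rcases Nat.eq_zero_or_pos a with h0 | h0
    · rw [h0, Nat.cast_zero] at hau
      exact absurd hau.symm u.ne_zero
    · exact h0
  have h3 : 1 ≤ a ^ (m * f) := Nat.one_le_pow _ _ ha0
  have h4 : (u : ZMod p) ^ (m * f) = 1 := by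
    rw [← hau, ← Nat.cast_pow, ← sub_eq_zero, ← Nat.cast_one (R := ZMod p), ← Nat.cast_sub h3,
      CharP.cast_eq_zero_iff (ZMod p) p]
    exact h2
  have h5 : u ^ (m * f) = 1 := by
    apply Units.ext
    rw [Units.val_pow_eq_pow_val, h4, Units.val_one]
  have h6 : orderOf u = p - 1 := by
    rw [orderOf_eq_card_of_forall_mem_zpowers hu, Nat.card_eq_fintype_card, ZMod.card_units]
  have h7 : p - 1 ∣ m * f := by
    rw [← h6]
    exact orderOf_dvd_of_pow_eq_one h5
  have h8 := Nat.le_of_dvd (Nat.mul_pos hm1 hf) h7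
  have h9 : m * f ≤ Module.finrank ℚ K * B := Nat.mul_le_mul hm2 (hif1.trans hif)
  omega

/-- all large degrees -/
theorem cyc_of_large {d B : ℕ} (h : (B * 3 ^ (Module.finrank ℚ K * B)).factorial < d) :
    Cyc K d B := by
  set Q := B * 3 ^ (Module.finrank ℚ K * B) with hQ
  have hd0 : d ≠ 0 := by omega
  by_contra hcon
  have h1 : d ∣ Q.factorial := by
    rw [← Nat.factorization_prime_le_iff_dvd hd0 Q.factorial_ne_zero]
    intro p hp
    rw [← hp.pow_dvd_iff_le_factorization Q.factorial_ne_zero]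
    have h2 : p ^ (d.factorization p) ≤ Q := by
      by_contra h3
      push Not at h3
      exact hcon (cyc_of_primePow hp (Nat.ordProj_dvd d p) h3)
    exact Nat.dvd_factorial (pow_pos hp.pos _) h2
  have := Nat.le_of_dvd Q.factorial_pos h1
  omega

end

end Pool.Agent.H16.AB
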