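import Mathlib
import Pool.Agent.H16.AB.Sup
import Pool.Agent.H16.HE.Tup

/-!
# Upper bounds for the number of points in boxes
-/

set_option autoImplicit false
set_option linter.unusedSectionVars false
set_option linter.style.haveILetI false

namespace Pool.Agent.H16.AB

open NumberField IsDedekindDomain Filter Topology Pool.Agent.TH120.Sec Pool.Agent.TH377.Dyn

universe u v

/-- upper density at most `ε`, in a uniform form -/
def Ub {K : Type u} [Field K] {J : Type v} [Fintype J] (ω : Module.Basis J ℤ (𝓞 K)) (N : ℕ)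
    (E : Set (Fin N → 𝓞 K)) (ε : ℝ) : Prop :=
  ∃ m : ℕ, ∀ H : ℕ, ((E ∩ BoxD ω N H).ncard : ℝ) ≤
    ε * ((2 * (H : ℝ) + 1 + m) ^ Fintype.card J) ^ N

lemma boxD_finite {K : Type u} [Field K] {J : Type v} [Fintype J] (ω : Module.Basis J ℤ (𝓞 K))
    (N H : ℕ) : (BoxD ω N H).Finite := by
  apply Set.finite_of_ncard_ne_zero
  rw [box_card]
  positivity

theorem ub_mono {K : Type u} [Field K] {J : Type v} [Fintype J] {ω : Module.Basis J ℤ (𝓞 K)}
    {N : ℕ} {E E' : Set (Fin N → 𝓞 K)} {ε ε' : ℝ} (h : Ub ω N E ε) (hE : E' ⊆ E) (hε : ε ≤ ε') :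
    Ub ω N E' ε' := by
  obtain ⟨m, hm⟩ := h
  refine ⟨m, fun H => ?_⟩
  have h1 : (E' ∩ BoxD ω N H).ncard ≤ (E ∩ BoxD ω N H).ncard :=
    Set.ncard_le_ncard (Set.inter_subset_inter_left _ hE)
      ((boxD_finite ω N H).subset Set.inter_subset_right)
  have h2 : ((E' ∩ BoxD ω N H).ncard : ℝ) ≤ ((E ∩ BoxD ω N H).ncard : ℝ) := by exact_mod_cast h1
  refine h2.trans ((hm H).trans ?_)
  exact mul_le_mul_of_nonneg_right hε (by positivity)

theorem ub_union {K : Type u} [Field K] {J : Type v} [Fintype J] {ω : Module.Basis J ℤ (𝓞 K)}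
    {N : ℕ} {E E' : Set (Fin N → 𝓞 K)} {ε ε' : ℝ} (h0 : 0 ≤ ε) (h0' : 0 ≤ ε') (h : Ub ω N E ε)
    (h' : Ub ω N E' ε') : Ub ω N (E ∪ E') (ε + ε') := by
  obtain ⟨m, hm⟩ := h
  obtain ⟨m', hm'⟩ := h'
  refine ⟨max m m', fun H => ?_⟩
  have h1 : ((E ∪ E') ∩ BoxD ω N H).ncard ≤
      (E ∩ BoxD ω N H).ncard + (E' ∩ BoxD ω N H).ncard := by
    rw [Set.union_inter_distrib_right]
    exact Set.ncard_union_le _ _
  have h2 : (((E ∪ E') ∩ BoxD ω N H).ncard : ℝ) ≤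
      ((E ∩ BoxD ω N H).ncard : ℝ) + ((E' ∩ BoxD ω N H).ncard : ℝ) := by exact_mod_cast h1
  have h3 : (2 * (H : ℝ) + 1 + m) ≤ 2 * (H : ℝ) + 1 + ((max m m' : ℕ) : ℝ) := by
    have : (m : ℝ) ≤ ((max m m' : ℕ) : ℝ) := by exact_mod_cast le_max_left m m'
    linarith
  have h3' : (2 * (H : ℝ) + 1 + m') ≤ 2 * (H : ℝ) + 1 + ((max m m' : ℕ) : ℝ) := by
    have : (m' : ℝ) ≤ ((max m m' : ℕ) : ℝ) := by exact_mod_cast le_max_right m m'
    linarith
  have h4 : ε * ((2 * (H : ℝ) + 1 + m) ^ Fintype.card J) ^ N ≤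
      ε * ((2 * (H : ℝ) + 1 + ((max m m' : ℕ) : ℝ)) ^ Fintype.card J) ^ N := by gcongr
  have h4' : ε' * ((2 * (H : ℝ) + 1 + m') ^ Fintype.card J) ^ N ≤
      ε' * ((2 * (H : ℝ) + 1 + ((max m m' : ℕ) : ℝ)) ^ Fintype.card J) ^ N := by gcongr
  have h5 := hm H
  have h5' := hm' H
  rw [add_mul]
  linarith

theorem ub_biUnion {K : Type u} [Field K] {J : Type v} [Fintype J] {ω : Module.Basis J ℤ (𝓞 K)}
    {N : ℕ} (D : Finset ℕ) (E : ℕ → Set (Fin N → 𝓞 K)) {η : ℝ} (hη : 0 ≤ η)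
    (h : ∀ d ∈ D, Ub ω N (E d) η) : Ub ω N (⋃ d ∈ D, E d) (D.card * η) := by
  classical
  induction D using Finset.induction_on with
  | empty =>
    refine ⟨0, fun H => ?_⟩
    simp
  | insert a s ha ih =>
    have h1 := ub_union hη (by positivity) (h a (Finset.mem_insert_self _ _))
      (ih fun d hd => h d (Finset.mem_insert_of_mem hd))
    refine ub_mono h1 ?_ ?_
    · rw [Finset.set_biUnion_insert]
    · rw [Finset.card_insert_of_notMem ha]
      push_cast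
      linarith

theorem ub_of_ideal {K : Type u} [Field K] [NumberField K] {N : ℕ} (E : Set (Fin N → 𝓞 K))
    {J : Type v} [Fintype J] (ω : Module.Basis J ℤ (𝓞 K)) (ε : ℝ) (hε : 0 < ε) (I : Ideal (𝓞 K))
    (hI : I ≠ ⊥) (hle : (Set.ncard (red I N '' E) : ℝ) ≤ ε * (Nat.card (𝓞 K ⧸ I) : ℝ) ^ N) :
    Ub ω N E ε := by
  classical
  have hfin : Finite (𝓞 K ⧸ I) := Ideal.finiteQuotientOfFreeOfNeBot _ hI
  set m := Nat.card (𝓞 K ⧸ I) with hm
  have hm0 : 0 < m := Nat.card_pos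
  set Q := 𝓞 K ⧸ Ideal.span {(m : 𝓞 K)} with hQ
  have hmI : Ideal.span {(m : 𝓞 K)} ≤ I := by
    rw [Ideal.span_singleton_le_iff_mem, ← Ideal.Quotient.eq_zero_iff_mem]
    have h1 : Nat.card (𝓞 K ⧸ I) • (1 : 𝓞 K ⧸ I) = 0 := card_nsmul_eq_zero'
    rw [nsmul_eq_mul, mul_one] at h1
    rw [map_natCast]
    exact h1
  have hne : Ideal.span {(m : 𝓞 K)} ≠ ⊥ := by
    rw [Ne, Ideal.span_singleton_eq_bot]
    exact_mod_cast hm0.ne'
  have hfinQ : Finite Q := Ideal.finiteQuotientOfFreeOfNeBot _ hne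
  have hcQ : Nat.card Q = m ^ Fintype.card J := card_quot ω m
  let f : Q →+* 𝓞 K ⧸ I := Ideal.Quotient.factor hmI
  have hf : Function.Surjective f := Ideal.Quotient.factor_surjective hmI
  have hfmk : ∀ a, f (Ideal.Quotient.mk _ a) = Ideal.Quotient.mk I a := fun a => rfl
  let s := Function.surjInv hf
  have hs : ∀ y, f (s y) = y := Function.surjInv_eq hf
  set k0 : Set Q := {x | f x = 0} with hk0
  set S := red I N '' E with hS
  -- the kernel
  have hk : k0.ncard * m ≤ Nat.card Q := by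
    have h1 : Nat.card (k0 × (𝓞 K ⧸ I)) ≤ Nat.card Q := by
      refine Nat.card_le_card_of_injective (fun x => (x.1 : Q) + s x.2) ?_
      rintro ⟨⟨k, hk⟩, y⟩ ⟨⟨k', hk'⟩, y'⟩ h
      have h0 : k + s y = k' + s y' := h
      have h2 : y = y' := by
        have := congrArg f h0
        rwa [map_add, map_add, hs, hs, show f k = 0 from hk, show f k' = 0 from hk', zero_add,
          zero_add] at this
      subst h2
      have h3 : k = k' := add_right_cancel h0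
      subst h3
      rfl
    rwa [Nat.card_prod, Nat.card_coe_set_eq] at h1
  refine ⟨m, fun H => ?_⟩
  -- the injection
  set T := (2 * H) / m + 1 with hT
  set P : Set (Fin N → Q) := {x | (fun i => f (x i)) ∈ S} with hP
  have hPc : P.ncard ≤ S.ncard * k0.ncard ^ N := by
    have h1 : Nat.card P ≤ Nat.card (S × (Fin N → k0)) := by
      refine Nat.card_le_card_of_injective (fun x => (⟨fun i => f (x.1 i), x.2⟩,
        fun i => ⟨x.1 i - s (f (x.1 i)), by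
          change f (x.1 i - s (f (x.1 i))) = 0
          rw [map_sub, hs, sub_self]⟩)) ?_
      rintro ⟨x, hx⟩ ⟨y, hy⟩ h
      have h2 : (fun i => f (x i)) = fun i => f (y i) :=
        congrArg Subtype.val (congrArg Prod.fst h)
      have h3 := congrArg Prod.snd h
      apply Subtype.ext
      funext i
      have h4 : x i - s (f (x i)) = y i - s (f (y i)) := congrArg Subtype.val (congrFun h3 i)
      have h5 : f (x i) = f (y i) := congrFun h2 i
      rw [h5] at h4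
      exact sub_left_injective h4
    rw [Nat.card_prod, Nat.card_pi] at h1
    simp only [Nat.card_coe_set_eq, Finset.prod_const, Finset.card_univ, Fintype.card_fin] at h1
    exact h1
  have hinj : (E ∩ BoxD ω N H).ncard ≤ (T ^ Fintype.card J) ^ N * P.ncard := by
    have h1 : Nat.card (E ∩ BoxD ω N H : Set (Fin N → 𝓞 K)) ≤
        Nat.card ((Fin N → J → Fin T) × P) := by
      have hbd : ∀ c ∈ BoxD ω N H, ∀ i j, ((ω.repr (c i) j + H) / m).toNat < T := by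
        intro c hc i j
        have h2 := abs_le.1 (hc i j)
        have h3 : 0 ≤ (ω.repr (c i) j + H) / (m : ℤ) :=
          Int.ediv_nonneg (by linarith [h2.1]) (by positivity)
        have h4 : (ω.repr (c i) j + H) / (m : ℤ) ≤ (2 * H : ℤ) / m :=
          Int.ediv_le_ediv (by exact_mod_cast hm0) (by linarith [h2.2])
        rw [hT]
        have h5 : ((2 * H / m : ℕ) : ℤ) = (2 * H : ℤ) / m := by push_cast; rfl
        omega
      refine Nat.card_le_card_of_injective (fun c =>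
        (fun i j => ⟨((ω.repr (c.1 i) j + H) / m).toNat, hbd c.1 c.2.2 i j⟩,
          ⟨fun i => Ideal.Quotient.mk _ (c.1 i), ⟨c.1, c.2.1, rfl⟩⟩)) ?_
      rintro ⟨c, hc⟩ ⟨c', hc'⟩ h
      apply Subtype.ext
      funext i
      apply ω.repr.injective
      ext j
      have h2 : ((ω.repr (c i) j + H) / m).toNat = ((ω.repr (c' i) j + H) / m).toNat :=
        congrArg Fin.val (congrFun (congrFun (congrArg Prod.fst h) i) j)
      have h3 : Ideal.Quotient.mk (Ideal.span {(m : 𝓞 K)}) (c i) =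
          Ideal.Quotient.mk (Ideal.span {(m : 𝓞 K)}) (c' i) :=
        congrFun (congrArg Subtype.val (congrArg Prod.snd h)) i
      rw [Ideal.Quotient.eq] at h3
      have h4 := mem_span_coord ω m _ h3 j
      rw [map_sub, Finsupp.sub_apply] at h4
      have h5 : 0 ≤ (ω.repr (c i) j + H) / (m : ℤ) :=
        Int.ediv_nonneg (by linarith [(abs_le.1 (hc.2 i j)).1]) (by positivity)
      have h6 : 0 ≤ (ω.repr (c' i) j + H) / (m : ℤ) :=
        Int.ediv_nonneg (by linarith [(abs_le.1 (hc'.2 i j)).1]) (by positivity)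
      have h7 : (ω.repr (c i) j + H) / (m : ℤ) = (ω.repr (c' i) j + H) / (m : ℤ) := by omega
      have h8 : (ω.repr (c i) j + H) % (m : ℤ) = (ω.repr (c' i) j + H) % (m : ℤ) := by
        refine Int.emod_emod_of_dvd _ dvd_rfl ▸ ?_
        refine (Int.emod_emod_of_dvd _ dvd_rfl).trans ?_
        refine Int.ModEq.symm ((Int.modEq_iff_dvd).2 ?_)
        convert h4 using 1
        ring
      have h9 := Int.mul_ediv_add_emod (ω.repr (c i) j + H) m
      have h10 := Int.mul_ediv_add_emod (ω.repr (c' i) j + H) m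
      rw [h7, h8] at h9
      have h11 := h9.symm.trans h10
      linarith
    rw [Nat.card_prod, Nat.card_pi] at h1
    simp only [Nat.card_coe_set_eq, Finset.prod_const, Finset.card_univ,
      Fintype.card_fin, Nat.card_eq_fintype_card] at h1
    rwa [Fintype.card_fun, Fintype.card_fin] at h1
  have h1 : ((E ∩ BoxD ω N H).ncard : ℝ) ≤
      ((T : ℝ) ^ Fintype.card J) ^ N * ((S.ncard : ℝ) * (k0.ncard : ℝ) ^ N) := by
    have h2 : (E ∩ BoxD ω N H).ncard ≤ (T ^ Fintype.card J) ^ N * (S.ncard * k0.ncard ^ N) :=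
      hinj.trans (Nat.mul_le_mul_left _ hPc)
    exact_mod_cast h2
  refine h1.trans ?_
  have h2 : (k0.ncard : ℝ) * m ≤ (m : ℝ) ^ Fintype.card J := by
    rw [hcQ] at hk
    exact_mod_cast hk
  have h3 : ((T : ℝ) ^ Fintype.card J) ^ N * ((S.ncard : ℝ) * (k0.ncard : ℝ) ^ N) ≤
      ((T : ℝ) ^ Fintype.card J) ^ N * (ε * ((m : ℝ) ^ Fintype.card J) ^ N) := by
    refine mul_le_mul_of_nonneg_left ?_ (by positivity)
    calc (S.ncard : ℝ) * (k0.ncard : ℝ) ^ N ≤ (ε * (m : ℝ) ^ N) * (k0.ncard : ℝ) ^ N :=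
          mul_le_mul_of_nonneg_right hle (by positivity)
      _ = ε * ((k0.ncard : ℝ) * m) ^ N := by rw [mul_pow]; ring
      _ ≤ ε * ((m : ℝ) ^ Fintype.card J) ^ N := by gcongr
  refine h3.trans ?_
  have h4 : (T : ℝ) * m ≤ 2 * (H : ℝ) + 1 + m := by
    have h5 : (2 * H) / m * m ≤ 2 * H := Nat.div_mul_le_self _ _
    have h6 : ((2 * H / m : ℕ) : ℝ) * m ≤ 2 * H := by exact_mod_cast h5
    rw [hT]
    push_cast
    linarith
  calc ((T : ℝ) ^ Fintype.card J) ^ N * (ε * ((m : ℝ) ^ Fintype.card J) ^ N) =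
        ε * (((T : ℝ) * m) ^ Fintype.card J) ^ N := by
        rw [mul_pow (T : ℝ), mul_pow]
        ring
    _ ≤ _ := by gcongr

/-- **Density zero in boxes.** -/
theorem tendsto_of_ub {K : Type u} [Field K] [NumberField K] {N : ℕ} (E : Set (Fin N → 𝓞 K))
    {J : Type v} [Fintype J] (ω : Module.Basis J ℤ (𝓞 K)) (hE : ∀ ε : ℝ, 0 < ε → Ub ω N E ε) :
    Tendsto (fun H : ℕ => ((E ∩ BoxD ω N H).ncard : ℝ) / ((BoxD ω N H).ncard : ℝ)) atTop
      (𝓝 0) := by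
  rw [Metric.tendsto_atTop]
  intro ε hε
  obtain ⟨m, hm⟩ := hE (ε / 4) (by positivity)
  have hlim : Tendsto (fun H : ℕ => ((1 + (m : ℝ) / (2 * (H : ℝ) + 1)) ^ Fintype.card J) ^ N)
      atTop (𝓝 1) := by
    have h1 : Tendsto (fun H : ℕ => (m : ℝ) / (2 * (H : ℝ) + 1)) atTop (𝓝 0) := by
      refine Tendsto.div_atTop tendsto_const_nhds ?_
      exact tendsto_atTop_add_const_right _ _
        ((tendsto_natCast_atTop_atTop).const_mul_atTop two_pos)
    have h2 := ((tendsto_const_nhds (x := (1 : ℝ))).add h1).pow (Fintype.card J)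
    have h3 := h2.pow N
    simpa using h3
  have hev := (hlim.eventually (gt_mem_nhds (one_lt_two))).exists_forall_of_atTop
  obtain ⟨H0, hH0⟩ := hev
  refine ⟨H0, fun H hH => ?_⟩
  have hB : ((BoxD ω N H).ncard : ℝ) = ((2 * (H : ℝ) + 1) ^ Fintype.card J) ^ N := by
    rw [box_card]
    push_cast
    rfl
  have hpos : (0 : ℝ) < 2 * (H : ℝ) + 1 := by positivity
  rw [Real.dist_eq, sub_zero, abs_of_nonneg (by positivity), hB, div_lt_iff₀ (by positivity)]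
  refine (hm H).trans_lt ?_
  have h5 : ((2 * (H : ℝ) + 1 + m) ^ Fintype.card J) ^ N =
      ((1 + (m : ℝ) / (2 * (H : ℝ) + 1)) ^ Fintype.card J) ^ N *
        ((2 * (H : ℝ) + 1) ^ Fintype.card J) ^ N := by
    rw [← mul_pow, ← mul_pow]
    congr 2
    field_simp
  rw [h5]
  have h6 := hH0 H hH
  have h7 : (0 : ℝ) < ((2 * (H : ℝ) + 1) ^ Fintype.card J) ^ N := by positivity
  nlinarith [mul_lt_mul_of_pos_right h6 h7]


/-- **Density zero from congruence conditions.** -/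
theorem ratio_of_finset {K : Type u} [Field K] [NumberField K] (d : ℕ)
    (S : (v : HeightOneSpectrum (𝓞 K)) → Set (Fin d → 𝓞 K ⧸ v.asIdeal ^ 2)) (δ : ℝ)
    (T : Finset (HeightOneSpectrum (𝓞 K)))
    (hcard : ∀ v, ((S v).ncard : ℝ) ≤ (1 - δ * (1 / (Ideal.absNorm v.asIdeal : ℝ) -
        1 / (Ideal.absNorm v.asIdeal : ℝ) ^ 2)) * ((Ideal.absNorm v.asIdeal : ℝ) ^ 2) ^ d)
    (E : Set (Fin d → 𝓞 K)) (hE : ∀ a ∈ E, ∀ v ∈ T, red (v.asIdeal ^ 2) d a ∈ S v)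
    (ε : ℝ) (hTε : ∏ v ∈ T, (1 - δ * (1 / (Ideal.absNorm v.asIdeal : ℝ) -
        1 / (Ideal.absNorm v.asIdeal : ℝ) ^ 2)) < ε) :
    ∃ I : Ideal (𝓞 K), I ≠ ⊥ ∧
      (Set.ncard (red I d '' E) : ℝ) ≤ ε * (Nat.card (𝓞 K ⧸ I) : ℝ) ^ d := by
  classical
  obtain ⟨e, he⟩ := Pool.Agent.W417.SecC.D2.crt T
  have hfin : ∀ v : T, Finite (𝓞 K ⧸ v.1.asIdeal ^ 2) := by
    intro v
    apply Nat.finite_of_card_ne_zero
    rw [Pool.Agent.W417.SecC.D2.card_sq]
    exact pow_ne_zero _ (Pool.Agent.W417.SecC.D2.norm_pos _).ne'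
  have hcardI : (Nat.card (𝓞 K ⧸ ∏ v ∈ T, v.asIdeal ^ 2) : ℝ) =
      ∏ v ∈ T, (Ideal.absNorm v.asIdeal : ℝ) ^ 2 := by
    rw [Nat.card_congr e.toEquiv, Nat.card_pi, ← Finset.prod_coe_sort T]
    push_cast
    refine Finset.prod_congr rfl fun v _ => ?_
    rw [Pool.Agent.W417.SecC.D2.card_sq]
    push_cast
    rfl
  refine ⟨∏ v ∈ T, v.asIdeal ^ 2, ?_, ?_⟩
  · exact Finset.prod_ne_zero_iff.2 fun v _ => pow_ne_zero _ v.ne_bot
  have hE' : ∀ a ∈ E, ∀ v : T, red (v.1.asIdeal ^ 2) d a ∈ S v.1 :=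
    fun a ha v => hE a ha v.1 v.2
  have h1 := countd (∏ v ∈ T, v.asIdeal ^ 2) T (fun v => v.1.asIdeal ^ 2) e he hfin d E
    (fun v => S v.1) hE'
  have h1' : ((red (∏ v ∈ T, v.asIdeal ^ 2) d '' E).ncard : ℝ) ≤
      ∏ v : T, ((S v.1).ncard : ℝ) := by
    exact_mod_cast h1
  refine h1'.trans ?_
  have h2 := prod_bound T (fun v : T => ((S v.1).ncard : ℝ))
    (fun v => (1 - δ * (1 / (Ideal.absNorm v.asIdeal : ℝ) -
        1 / (Ideal.absNorm v.asIdeal : ℝ) ^ 2)))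
    (fun v => ((Ideal.absNorm v.asIdeal : ℝ) ^ 2) ^ d) (fun _ => Nat.cast_nonneg _)
    (fun v => hcard v.1)
  refine h2.trans ?_
  rw [Finset.prod_pow, hcardI]
  exact mul_le_mul_of_nonneg_right hTε.le
    (pow_nonneg (Finset.prod_nonneg fun _ _ => sq_nonneg _) d)



section pairs

variable {K : Type u} [Field K] [NumberField K] (v : HeightOneSpectrum (𝓞 K))

/-- the fraction `c 0 / c 1` has a simple pole at `v`, and `c 0` is a unit there -/
def Pole (c : Fin 2 → 𝓞 K) : Prop := c 0 ∉ v.asIdeal ∧ c 1 ∈ v.asIdeal ∧ c 1 ∉ v.asIdeal ^ 2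

/-- the same modulo `v ^ 2` -/
def PoleR : Set (Fin 2 → 𝓞 K ⧸ v.asIdeal ^ 2) := {y | pr v (y 0) ≠ 0 ∧ pr v (y 1) = 0 ∧ y 1 ≠ 0}

lemma pole_iff (c : Fin 2 → 𝓞 K) : red (v.asIdeal ^ 2) 2 c ∈ PoleR v ↔ Pole v c := by
  unfold PoleR Pole red
  rw [Set.mem_setOf_eq, pr_mk, pr_mk, Ne, Ideal.Quotient.eq_zero_iff_mem,
    Ideal.Quotient.eq_zero_iff_mem, Ne, Ideal.Quotient.eq_zero_iff_mem]

lemma poleR_card : ((PoleR v).ncard : ℝ) = ((Ideal.absNorm v.asIdeal : ℝ) ^ 2 -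
    Ideal.absNorm v.asIdeal) * (Ideal.absNorm v.asIdeal - 1) := by
  classical
  have hfin := finite_sq v
  set N := Ideal.absNorm v.asIdeal with hN
  have hN2 : 2 ≤ N := Pool.Agent.H16.HE.norm_two_le v
  set J : Set (𝓞 K ⧸ v.asIdeal ^ 2) := {x | pr v x = 0} with hJ
  have hJc : J.ncard = N := ker_ncard v
  have h1 : PoleR v = finTwoArrowEquiv (𝓞 K ⧸ v.asIdeal ^ 2) ⁻¹' (Jᶜ ×ˢ (J \ {0})) := by
    ext y
    rfl
  have h2 : J.ncard + Jᶜ.ncard = N ^ 2 := by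
    rw [Set.ncard_add_ncard_compl, Pool.Agent.W417.SecC.D2.card_sq]
  have h0 : (0 : 𝓞 K ⧸ v.asIdeal ^ 2) ∈ J := map_zero (pr v)
  have h3 : (J \ {0}).ncard + 1 = N := by
    rw [Set.ncard_diff_singleton_add_one h0, hJc]
  have h4 : (PoleR v).ncard = Jᶜ.ncard * (J \ {0}).ncard := by
    rw [h1, Pool.Agent.H16.HE.ncard_preim, Set.ncard_prod]
  rw [h4]
  push_cast
  have h5 : (Jᶜ.ncard : ℝ) = (N : ℝ) ^ 2 - N := by
    rw [hJc] at h2
    have : (N : ℝ) + (Jᶜ.ncard : ℝ) = (N : ℝ) ^ 2 := by exact_mod_cast h2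
    linarith
  have h6 : ((J \ {0}).ncard : ℝ) = (N : ℝ) - 1 := by
    have : ((J \ {0}).ncard : ℝ) + 1 = (N : ℝ) := by exact_mod_cast h3
    linarith
  rw [h5, h6]

lemma poleRc_card : (((PoleR v)ᶜ).ncard : ℝ) ≤ (1 - 1 / 2 * (1 / (Ideal.absNorm v.asIdeal : ℝ) -
    1 / (Ideal.absNorm v.asIdeal : ℝ) ^ 2)) * ((Ideal.absNorm v.asIdeal : ℝ) ^ 2) ^ 2 := by
  classical
  have hfin := finite_sq v
  have h1 := poleR_card v
  set N := Ideal.absNorm v.asIdeal with hN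
  have hN2 : 2 ≤ N := Pool.Agent.H16.HE.norm_two_le v
  have hNr : (2 : ℝ) ≤ N := by exact_mod_cast hN2
  have h2 : (PoleR v).ncard + ((PoleR v)ᶜ).ncard = (N ^ 2) ^ 2 := by
    rw [Set.ncard_add_ncard_compl, Nat.card_fun, Pool.Agent.W417.SecC.D2.card_sq, Nat.card_fin]
  have h3 : ((PoleR v).ncard : ℝ) + (((PoleR v)ᶜ).ncard : ℝ) = ((N : ℝ) ^ 2) ^ 2 := by
    exact_mod_cast h2
  have h4 : (1 - 1 / 2 * (1 / (N : ℝ) - 1 / (N : ℝ) ^ 2)) * ((N : ℝ) ^ 2) ^ 2 =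
      ((N : ℝ) ^ 2) ^ 2 - 1 / 2 * ((N : ℝ) ^ 3 - (N : ℝ) ^ 2) := by
    field_simp
  rw [h4]
  have h5 : 1 / 2 * ((N : ℝ) ^ 3 - (N : ℝ) ^ 2) ≤ ((N : ℝ) ^ 2 - N) * (N - 1) := by
    have h6 : ((N : ℝ) ^ 2 - N) * (N - 1) - 1 / 2 * ((N : ℝ) ^ 3 - (N : ℝ) ^ 2) =
      N * (N - 1) * (N / 2 - 1) := by ring
    have h7 : 0 ≤ (N : ℝ) * (N - 1) * (N / 2 - 1) :=
      mul_nonneg (mul_nonneg (by linarith) (by linarith)) (by linarith)
    linarith
  linarith

lemma norm_gt_of_factorial {m : ℕ} (h : ((m.factorial : ℕ) : 𝓞 K) ∉ v.asIdeal) :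
    m < Ideal.absNorm v.asIdeal := by
  by_contra hcon
  push Not at hcon
  apply h
  have h1 : 0 < Ideal.absNorm v.asIdeal := Pool.Agent.W417.SecC.D2.norm_pos v
  obtain ⟨k, hk⟩ := Nat.dvd_factorial h1 hcon
  rw [hk]
  push_cast
  exact v.asIdeal.mul_mem_right _ (Ideal.absNorm_mem v.asIdeal)

end pairs

section main

variable (K : Type) [Field K] [NumberField K]

/-- the exceptional pairs -/
def ExcP (B m : ℕ) : Set (Fin 2 → 𝓞 K) :=
  {c | ∃ d : ℕ, 2 ≤ d ∧ Cyc K d B ∧ ¬ ∃ v : HeightOneSpectrum (𝓞 K), Pole v c ∧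
    m < Ideal.absNorm v.asIdeal ∧ ((d : 𝓞 K) ∈ v.asIdeal ∨ Cy d B v)}

variable {K}

/-- a finite set of primes works for a proportion of pairs -/
theorem ub_finset {J : Type v} [Fintype J] (ω : Module.Basis J ℤ (𝓞 K))
    (T : Finset (HeightOneSpectrum (𝓞 K))) (ε : ℝ) (hε : 0 < ε)
    (hTε : ∏ v ∈ T, (1 - 1 / 2 * (1 / (Ideal.absNorm v.asIdeal : ℝ) -
      1 / (Ideal.absNorm v.asIdeal : ℝ) ^ 2)) < ε) :
    Ub ω 2 {c : Fin 2 → 𝓞 K | ∀ v ∈ T, ¬ Pole v c} ε := by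
  obtain ⟨I, hI, hle⟩ := ratio_of_finset 2 (fun v => (PoleR v)ᶜ) (1 / 2) T
    (fun v => poleRc_card v) {c : Fin 2 → 𝓞 K | ∀ v ∈ T, ¬ Pole v c}
    (fun c hc v hv h => hc v hv ((pole_iff v c).1 h)) ε hTε
  exact ub_of_ideal _ ω ε hε I hI hle

theorem cy_large {B d : ℕ} {v : HeightOneSpectrum (𝓞 K)} (hv : (d : 𝓞 K) ∉ v.asIdeal)
    (hd : B * Ideal.absNorm v.asIdeal ^ B < d) : Cy d B v := by
  refine ⟨hv, fun i f hi hf hif h => ?_⟩
  have hN : 2 ≤ Ideal.absNorm v.asIdeal := Pool.Agent.H16.HE.norm_two_le v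
  have h1 : f ≤ i * f := Nat.le_mul_of_pos_left _ hi
  have h2 : i ≤ i * f := Nat.le_mul_of_pos_right _ hf
  have h3 : 1 < Ideal.absNorm v.asIdeal ^ f := Nat.one_lt_pow (by omega) (by omega)
  have h4 : 0 < i * (Ideal.absNorm v.asIdeal ^ f - 1) := Nat.mul_pos hi (by omega)
  have h5 := Nat.le_of_dvd h4 h
  have h6 : Ideal.absNorm v.asIdeal ^ f ≤ Ideal.absNorm v.asIdeal ^ B :=
    Nat.pow_le_pow_right (by omega) (by omega)
  have h7 : i * (Ideal.absNorm v.asIdeal ^ f - 1) ≤ B * Ideal.absNorm v.asIdeal ^ B :=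
    Nat.mul_le_mul (by omega) (by omega)
  omega

theorem ub_exc {J : Type v} [Fintype J] (ω : Module.Basis J ℤ (𝓞 K)) (B m : ℕ) (ε : ℝ)
    (hε : 0 < ε) : Ub ω 2 (ExcP K B m) ε := by
  classical
  have hD : ((m.factorial : ℕ) : 𝓞 K) ≠ 0 := Nat.cast_ne_zero.2 m.factorial_pos.ne'
  obtain ⟨T', hT', hTε'⟩ := supply_all ((m.factorial : ℕ) : 𝓞 K) hD (1 / 2) (by norm_num)
    (by norm_num) (ε / 2) (by positivity)
  set Z : ℕ := (∑ v ∈ T', B * Ideal.absNorm v.asIdeal ^ B) + 1 with hZ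
  set D : Finset ℕ := (Finset.range Z).filter fun d => 2 ≤ d ∧ Cyc K d B with hDdef
  set η : ℝ := ε / (2 * Z) with hη
  have hZ0 : (0 : ℝ) < Z := by rw [hZ]; push_cast; positivity
  have hη0 : 0 < η := by positivity
  have hex : ∀ d : ℕ, ∃ T : Finset (HeightOneSpectrum (𝓞 K)), d ∈ D →
      (∀ v ∈ T, ((m.factorial : ℕ) : 𝓞 K) ∉ v.asIdeal ∧ Cy d B v) ∧
      ∏ v ∈ T, (1 - 1 / 2 * (1 / (Ideal.absNorm v.asIdeal : ℝ) -
        1 / (Ideal.absNorm v.asIdeal : ℝ) ^ 2)) < η := by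
    intro d
    by_cases hd : d ∈ D
    · rw [hDdef, Finset.mem_filter] at hd
      obtain ⟨T, hT⟩ := supply_cyc (by omega) hd.2.2 ((m.factorial : ℕ) : 𝓞 K) hD (1 / 2)
        (by norm_num) (by norm_num) η hη0
      exact ⟨T, fun _ => hT⟩
    · exact ⟨∅, fun h => absurd h hd⟩
  choose T hT using hex
  have h1 : Ub ω 2 {c : Fin 2 → 𝓞 K | ∀ v ∈ T', ¬ Pole v c} (ε / 2) :=
    ub_finset ω T' _ (by positivity) hTε'
  have h2 := ub_biUnion (ω := ω) D (fun d => {c : Fin 2 → 𝓞 K | ∀ v ∈ T d, ¬ Pole v c}) hη0.le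
    fun d hd => ub_finset ω (T d) _ hη0 (hT d hd).2
  refine ub_mono (ub_union (by positivity) (by positivity) h1 h2) ?_ ?_
  · rintro c ⟨d, hd, hcyc, hno⟩
    by_cases hdZ : d < Z
    · right
      have hdD : d ∈ D := by
        rw [hDdef, Finset.mem_filter, Finset.mem_range]
        exact ⟨hdZ, hd, hcyc⟩
      rw [Set.mem_iUnion₂]
      refine ⟨d, hdD, fun v hv hP => hno ⟨v, hP, ?_, Or.inr ((hT d hdD).1 v hv).2⟩⟩
      exact norm_gt_of_factorial v ((hT d hdD).1 v hv).1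
    · left
      intro v hv hP
      refine hno ⟨v, hP, norm_gt_of_factorial v (hT' v hv), ?_⟩
      by_cases hdv : (d : 𝓞 K) ∈ v.asIdeal
      · exact Or.inl hdv
      · refine Or.inr (cy_large hdv ?_)
        have h3 : B * Ideal.absNorm v.asIdeal ^ B ≤
            ∑ v ∈ T', B * Ideal.absNorm v.asIdeal ^ B :=
          Finset.single_le_sum (f := fun v : HeightOneSpectrum (𝓞 K) =>
            B * Ideal.absNorm v.asIdeal ^ B) (fun _ _ => Nat.zero_le _) hv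
        omega
  · have h3 : (D.card : ℝ) ≤ Z := by
      have : D.card ≤ Z := by
        refine (Finset.card_filter_le _ _).trans ?_
        rw [Finset.card_range]
      exact_mod_cast this
    have h4 : (D.card : ℝ) * η ≤ Z * η := mul_le_mul_of_nonneg_right h3 hη0.le
    have h5 : (Z : ℝ) * η = ε / 2 := by
      rw [hη]
      field_simp
    linarith

/-- **Almost all pairs are good for all degrees.** -/
theorem tendsto_exc {J : Type v} [Fintype J] (ω : Module.Basis J ℤ (𝓞 K)) (B m : ℕ) :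
    Tendsto (fun H : ℕ => ((ExcP K B m ∩ BoxD ω 2 H).ncard : ℝ) / ((BoxD ω 2 H).ncard : ℝ)) atTop
      (𝓝 0) :=
  tendsto_of_ub _ ω fun ε hε => ub_exc ω B m ε hε

end main

end Pool.Agent.H16.AB
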