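import Mathlib
import Pool.Agent.H16.AB.Ext

/-!
# Hénon maps over abelian extensions: one prime
-/

set_option autoImplicit false
set_option linter.unusedSectionVars false

namespace Pool.Agent.H16.AB

open NumberField IsDedekindDomain Polynomial Pool.Agent.H691R3 Pool.Agent.W223.AK
open Pool.Agent.Y733.LS Pool.Agent.Y733.DYN Pool.Agent.Y733.HEN Pool.Agent.Y733.UD
open Pool.Agent.H16.LH (LocD escape)

variable {K L : Type} [Field K] [NumberField K] [Field L] [NumberField L] [Algebra K L]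

/-- the conditions at a prime of `K` -/
structure OkA (B : ℕ) (F : K[X]) (δ : K) (v : Pr K) : Prop where
  const : fv v (F.coeff 0) = Nv v
  coeffs : ∀ i, 1 ≤ i → fv v (F.coeff i) ≤ 1
  lead : fv v F.leadingCoeff = 1
  delta : fv v δ ≤ 1
  cy : Cy F.natDegree B v

theorem loc_ab {F : K[X]} {δ : K} (hd : 2 ≤ F.natDegree) (hδ : δ ≠ 0) {B : ℕ}
    (hL : AbOver B K L) {v : Pr K} (hv : OkA B F δ v) {w : Pr L} (hw : w ∈ Ab L v) :
    LocD (fv w) (F.map (algebraMap K L)) (algebraMap K L δ) (Nv w ^ ri v w) := by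
  have hN := Nv_one_lt w
  have hri := ri_pos hw
  obtain ⟨h1, h2, h3, h4, h5⟩ := hv
  have hinj : Function.Injective (algebraMap K L) := (algebraMap K L).injective
  have hc1 : fv v (F.coeff 0) = Nv v ^ (1 : ℤ) := by rw [h1, zpow_one]
  have hce := fv_ext hw hc1
  rw [one_mul, zpow_natCast] at hce
  refine ⟨fv_Na w, one_lt_pow₀ hN (by omega), ?_, ?_, ?_, ext_le hw h4, ?_, ?_, ?_⟩
  · rw [coeff_map]
    exact hce
  · intro i hi
    rw [coeff_map]
    exact ext_le hw (h2 i hi)
  · rw [leadingCoeff_map]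
    have h5 : fv v F.leadingCoeff = Nv v ^ (0 : ℤ) := by rw [h3, zpow_zero]
    rw [fv_ext hw h5, zero_mul, zpow_zero]
  · rwa [Ne, map_eq_zero_iff _ hinj]
  · rwa [natDegree_map]
  · intro y
    rw [natDegree_map]
    intro hcon
    have hy0 : y ≠ 0 := by
      rintro rfl
      rw [map_zero, zero_pow (by omega)] at hcon
      have := pow_pos (Nv_pos w) (ri v w)
      linarith
    obtain ⟨m, hm⟩ := fv_zpow w hy0
    rw [hm, ← zpow_natCast, ← zpow_natCast, ← zpow_mul] at hcon
    have h6 : m * (F.natDegree : ℤ) = ((ri v w : ℕ) : ℤ) :=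
      zpow_right_injective₀ (Nv_pos w) hN.ne' hcon
    have h7 : (F.natDegree : ℤ) ∣ ((ri v w : ℕ) : ℤ) := ⟨m, by rw [← h6]; ring⟩
    exact not_dvd_ri hL h5 hw (Int.natCast_dvd_natCast.1 h7)

/-- **heights of the iterates** -/
theorem iter_ab {F : K[X]} {δ : K} (hd : 2 ≤ F.natDegree) (hδ : δ ≠ 0) {B : ℕ}
    (hL : AbOver B K L) {v : Pr K} (hv : OkA B F δ v) (P : L × L) (k : ℕ) :
    (F.natDegree : ℝ) ^ k * (Module.finrank K L * Real.log (Nv v)) ≤
      pht ((henL L F δ)^[k + 1] P) + pht ((invL L F δ)^[k + 1] P) := by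
  classical
  refine le_trans ?_ (add_le_add (sum_le_pht (Ab L v) _) (sum_le_pht (Ab L v) _))
  rw [← Finset.sum_add_distrib, ← sum_Ab (L := L) v, Finset.mul_sum]
  refine Finset.sum_le_sum fun w hw => ?_
  have hN := Nv_one_lt w
  have hN0 := Nv_pos w
  have hloc := loc_ab hd hδ hL hv hw
  set r := Nv w ^ ri v w with hr0
  have hr := hloc.one_lt
  have h3 : (F.natDegree : ℝ) ^ k * ((ri v w : ℝ) * Real.log (Nv w)) ≤
      Real.log (r ^ F.natDegree ^ k) := by
    rw [hr0, Real.log_pow, Real.log_pow]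
    push_cast
    exact le_rfl
  have hnn : ∀ Q : L × L, 0 ≤ Real.log (mx (fv w) ![Q.1, Q.2]) := fun Q =>
    Real.log_nonneg (one_le_mx _)
  have hdm : (F.map (algebraMap K L)).natDegree = F.natDegree := natDegree_map _
  refine h3.trans ?_
  rcases escape hloc P with h4 | h4
  · have h5 := h4 k
    rw [hdm] at h5
    have h6 := h5.trans (le_mx (w := fv w) ![((henL L F δ)^[k + 1] P).1,
      ((henL L F δ)^[k + 1] P).2] 1)
    have h7 := Real.log_le_log (by positivity) h6
    have h8 := hnn ((invL L F δ)^[k + 1] P)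
    linarith
  · have h5 := h4 (k + 1)
    rw [hdm] at h5
    have h6 := h5.trans (le_mx (w := fv w) ![((invL L F δ)^[k + 1] P).1,
      ((invL L F δ)^[k + 1] P).2] 0)
    have h7 : r ^ F.natDegree ^ k ≤ r ^ F.natDegree ^ (k + 1) :=
      pow_le_pow_right₀ hr.le (Nat.pow_le_pow_right (by omega) (by omega))
    have h9 := Real.log_le_log (by positivity) (h7.trans h6)
    have h8 := hnn ((henL L F δ)^[k + 1] P)
    linarith

end Pool.Agent.H16.AB
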