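import Mathlib
import Pool.Agent.H16.AB.Ext

/-!
# Kummer extensions
-/

set_option autoImplicit false
set_option linter.unusedSectionVars false
set_option linter.style.haveILetI false

namespace Pool.Agent.H16.AB

open NumberField Polynomial

theorem abOver_of_comm {K L : Type} [Field K] [NumberField K] [Field L] [NumberField L]
    [Algebra K L] [IsGalois K L] (h : ∀ σ τ : L ≃ₐ[K] L, σ * τ = τ * σ) {B : ℕ} (hB : 1 ≤ B) :
    AbOver B K L := by
  refine ⟨⊥, ?_, inferInstance, ?_⟩
  · rw [IntermediateField.finrank_bot]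
    exact hB
  · intro σ τ
    have h1 := h (σ.restrictScalars K) (τ.restrictScalars K)
    ext x
    exact congrArg (fun φ : L ≃ₐ[K] L => φ x) h1

theorem kummer_aux {K L : Type} [Field K] [Field L] [Algebra K L] {d : ℕ} (hd : 1 ≤ d) {z : K}
    (hz : IsPrimitiveRoot z d) (c : K) [IsSplittingField K L (X ^ d - C c : K[X])] :
    (∀ σ τ : L ≃ₐ[K] L, σ * τ = τ * σ) ∧ ∃ y : L, y ^ d = algebraMap K L c := by
  classical
  have hdeg : (X ^ d - C c : K[X]).natDegree = d := natDegree_X_pow_sub_C
  have hp0 : (X ^ d - C c : K[X]) ≠ 0 := by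
    intro h
    rw [h, natDegree_zero] at hdeg
    omega
  haveI : NeZero d := ⟨by omega⟩
  have hroot : ∀ y : L, y ∈ (X ^ d - C c : K[X]).rootSet L ↔ y ^ d = algebraMap K L c := by
    intro y
    rw [mem_rootSet_of_ne hp0]
    simp [sub_eq_zero]
  have hzL : IsPrimitiveRoot (algebraMap K L z) d :=
    hz.map_of_injective (algebraMap K L).injective
  refine ⟨?_, ?_⟩
  · have hmul : ∀ (σ : L ≃ₐ[K] L) (y : L), y ^ d = algebraMap K L c →
        ∃ i : ℕ, σ y = algebraMap K L z ^ i * y := by
      intro σ y hy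
      by_cases hy0 : y = 0
      · exact ⟨0, by rw [hy0, map_zero, mul_zero]⟩
      · have h1 : (σ y / y) ^ d = 1 := by
          rw [div_pow, ← map_pow, hy, AlgEquiv.commutes, ← hy,
            div_self (pow_ne_zero _ hy0)]
        obtain ⟨i, _, hi⟩ := hzL.eq_pow_of_pow_eq_one h1
        refine ⟨i, ?_⟩
        rw [hi, div_mul_cancel₀ _ hy0]
    intro σ τ
    have h2 : ((σ * τ : L ≃ₐ[K] L) : L →ₐ[K] L) = ((τ * σ : L ≃ₐ[K] L) : L →ₐ[K] L) := by
      apply AlgHom.ext_of_adjoin_eq_top (IsSplittingField.adjoin_rootSet L (X ^ d - C c : K[X]))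
      intro y hy
      rw [hroot] at hy
      obtain ⟨i, hi⟩ := hmul σ y hy
      obtain ⟨j, hj⟩ := hmul τ y hy
      change σ (τ y) = τ (σ y)
      rw [hi, hj, map_mul, map_mul, map_pow, map_pow, AlgEquiv.commutes, AlgEquiv.commutes, hi, hj]
      ring
    ext y
    exact congrArg (fun φ : L →ₐ[K] L => φ y) h2
  · have hs : ((X ^ d - C c : K[X]).map (algebraMap K L)).Splits :=
      IsSplittingField.splits L (X ^ d - C c : K[X])
    have hdeg' : ((X ^ d - C c : K[X]).map (algebraMap K L)).degree ≠ 0 := by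
      rw [degree_map]
      intro h
      have h3 := natDegree_eq_of_degree_eq_some (n := 0) h
      omega
    obtain ⟨y, hy⟩ := hs.exists_eval_eq_zero hdeg'
    refine ⟨y, ?_⟩
    rw [eval_map_algebraMap] at hy
    simpa [sub_eq_zero] using hy

theorem exists_kummer {K : Type} [Field K] [NumberField K] {d : ℕ} (hd : 1 ≤ d) {z : K}
    (hz : IsPrimitiveRoot z d) (c : K) :
    ∃ (L : Type) (_ : Field L) (_ : NumberField L) (_ : Algebra K L),
      IsGalois K L ∧ (∀ σ τ : L ≃ₐ[K] L, σ * τ = τ * σ) ∧ ∃ y : L, y ^ d = algebraMap K L c := by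
  let L := (X ^ d - C c : K[X]).SplittingField
  haveI : FiniteDimensional K L := inferInstance
  haveI : CharZero L := charZero_of_injective_algebraMap (algebraMap K L).injective
  haveI : NumberField L := NumberField.of_module_finite K L
  haveI : Normal K L := Normal.of_isSplittingField (X ^ d - C c : K[X])
  haveI : IsGalois K L := ⟨⟩
  have h := kummer_aux (L := L) hd hz c
  exact ⟨L, inferInstance, inferInstance, inferInstance, inferInstance, h.1, h.2⟩

end Pool.Agent.H16.AB
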